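import Mathlib

/-!
# The polynomial `X^(M+2) - X^M + 4 X^6 - 3 X^2 + 1` with `M` a power of two is irreducible
-/

set_option autoImplicit false

namespace Pool.Agent.R371.BF

open Polynomial

/-- the polynomial `X^(M+2) - X^M + 4 X^6 - 3 X^2 + 1` -/
noncomputable def P (M : ℕ) : ℤ[X] := X ^ (M + 2) - X ^ M + 4 * X ^ 6 - 3 * X ^ 2 + 1

theorem P_eq (M : ℕ) : P M = X ^ (M + 2) + (-X ^ M + 4 * X ^ 6 - 3 * X ^ 2 + 1) := by
  unfold P; ring

theorem tail_degree_lt {M : ℕ} (hM : 5 ≤ M) :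
    (-X ^ M + 4 * X ^ 6 - 3 * X ^ 2 + 1 : ℤ[X]).degree < ((M + 2 : ℕ) : WithBot ℕ) := by
  have h1 : (-X ^ M + 4 * X ^ 6 - 3 * X ^ 2 + 1 : ℤ[X]).natDegree ≤ M + 1 := by
    have e1 : (-X ^ M : ℤ[X]).natDegree ≤ M + 1 := by
      rw [natDegree_neg]; exact (natDegree_X_pow_le M).trans (by omega)
    have e2 : (4 * X ^ 6 : ℤ[X]).natDegree ≤ M + 1 := by
      refine (natDegree_mul_le).trans ?_
      have : (4 : ℤ[X]).natDegree = 0 := natDegree_ofNat 4
      rw [this]
      have := natDegree_X_pow_le (R := ℤ) 6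
      omega
    have e3 : (3 * X ^ 2 : ℤ[X]).natDegree ≤ M + 1 := by
      refine (natDegree_mul_le).trans ?_
      have : (3 : ℤ[X]).natDegree = 0 := natDegree_ofNat 3
      rw [this]
      have := natDegree_X_pow_le (R := ℤ) 2
      omega
    have e4 : (1 : ℤ[X]).natDegree ≤ M + 1 := by simp
    have f1 := natDegree_add_le (-X ^ M : ℤ[X]) (4 * X ^ 6)
    have f2 := natDegree_sub_le (-X ^ M + 4 * X ^ 6 : ℤ[X]) (3 * X ^ 2)
    have f3 := natDegree_add_le (-X ^ M + 4 * X ^ 6 - 3 * X ^ 2 : ℤ[X]) 1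
    omega
  refine lt_of_le_of_lt degree_le_natDegree ?_
  exact_mod_cast (by omega : (-X ^ M + 4 * X ^ 6 - 3 * X ^ 2 + 1 : ℤ[X]).natDegree < M + 2)

theorem P_monic {M : ℕ} (hM : 5 ≤ M) : (P M).Monic := by
  rw [P_eq]
  exact monic_X_pow_add (tail_degree_lt hM)

theorem P_natDegree {M : ℕ} (hM : 5 ≤ M) : (P M).natDegree = M + 2 := by
  rw [P_eq]
  apply natDegree_eq_of_degree_eq_some
  rw [degree_add_eq_left_of_degree_lt]
  · exact degree_X_pow _
  · rw [degree_X_pow]; exact tail_degree_lt hM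

theorem P_map_comp (m : ℕ) :
    ((P (2 ^ m)).comp (X + 1)).map (Int.castRingHom (ZMod 2)) = X ^ (2 ^ m + 2) := by
  have : Fact (Nat.Prime 2) := ⟨Nat.prime_two⟩
  have : CharP (ZMod 2)[X] 2 := inferInstance
  have h2 : (2 : (ZMod 2)[X]) = 0 := by
    have := CharP.cast_eq_zero (ZMod 2)[X] 2
    exact_mod_cast this
  have hpow : ((X : (ZMod 2)[X]) + 1) ^ (2 ^ m) = X ^ (2 ^ m) + 1 := by
    rw [add_pow_char_pow]; simp
  unfold P
  simp only [sub_comp, add_comp, pow_comp, X_comp, mul_comp, one_comp, Polynomial.map_sub,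
    Polynomial.map_add, Polynomial.map_mul, Polynomial.map_pow, map_X, Polynomial.map_one,
    ofNat_comp, Nat.cast_ofNat]
  have h4 : Polynomial.map (Int.castRingHom (ZMod 2)) (4 : ℤ[X]) = 4 := by
    exact Polynomial.map_ofNat (Int.castRingHom (ZMod 2)) 4
  have h3 : Polynomial.map (Int.castRingHom (ZMod 2)) (3 : ℤ[X]) = 3 := by
    exact Polynomial.map_ofNat (Int.castRingHom (ZMod 2)) 3
  rw [h4, h3]
  rw [pow_add (X + 1 : (ZMod 2)[X]) (2 ^ m) 2, hpow, pow_add]
  linear_combination (X ^ 2 ^ m * X + 2 * (X + 1) ^ 6 - (X + 1) ^ 2) * h2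

/-- `P (2 ^ m)` is irreducible: Eisenstein's criterion at `2` after the shift `X ↦ X + 1`. -/
theorem P_irreducible (m : ℕ) (hm : 3 ≤ m) : Irreducible (P (2 ^ m)) := by
  have hM : 5 ≤ 2 ^ m := by
    calc 5 ≤ 2 ^ 3 := by norm_num
      _ ≤ 2 ^ m := Nat.pow_le_pow_right (by norm_num) hm
  have hmonic := P_monic hM
  have hdeg := P_natDegree hM
  set Q : ℤ[X] := (P (2 ^ m)).comp (X + 1) with hQ
  have hQmonic : Q.Monic := by
    have : (X + 1 : ℤ[X]) = X + C 1 := by simp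
    rw [hQ, this]
    exact hmonic.comp_X_add_C 1
  have hQdeg : Q.natDegree = 2 ^ m + 2 := by
    have : (X + 1 : ℤ[X]) = X + C 1 := by simp
    rw [hQ, natDegree_comp, this, natDegree_X_add_C, mul_one, hdeg]
  have hQirr : Irreducible Q := by
    refine irreducible_of_eisenstein_criterion (P := Ideal.span {(2 : ℤ)}) ?_ ?_ ?_ ?_ ?_ ?_
    · rw [Ideal.span_singleton_prime (by norm_num)]; exact Int.prime_two
    · rw [hQmonic.leadingCoeff, Ideal.mem_span_singleton]; norm_num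
    · intro n hn
      rw [Ideal.mem_span_singleton]
      have h1 : n < 2 ^ m + 2 := by
        rw [degree_eq_natDegree hQmonic.ne_zero, hQdeg] at hn
        exact_mod_cast hn
      have h2 := congrArg (fun q => q.coeff n) (P_map_comp m)
      simp only [coeff_map, coeff_X_pow] at h2
      rw [if_neg (by omega)] at h2
      exact (ZMod.intCast_zmod_eq_zero_iff_dvd _ 2).1 (by simpa using h2)
    · rw [degree_eq_natDegree hQmonic.ne_zero, hQdeg]
      exact_mod_cast (by omega : 0 < 2 ^ m + 2)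
    · have h0 : Q.coeff 0 = 2 := by
        rw [hQ, coeff_zero_eq_eval_zero, eval_comp]
        simp [P]
      rw [h0, Ideal.span_singleton_pow, Ideal.mem_span_singleton]
      norm_num
    · exact hQmonic.isPrimitive
  have h3 : Irreducible (algEquivAevalXAddC (1 : ℤ) (P (2 ^ m))) := by
    have : algEquivAevalXAddC (1 : ℤ) (P (2 ^ m)) = Q := by
      rw [hQ]
      simp [algEquivAevalXAddC, comp, aeval_def]
    rw [this]; exact hQirr
  exact (MulEquiv.irreducible_iff (algEquivAevalXAddC (1 : ℤ))).1 h3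

end Pool.Agent.R371.BF
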