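import Mathlib

/-!
# The roots of `(2 y - 1)^2 (y + 1) + y^K (y - 1)`
-/

set_option autoImplicit false

namespace Pool.Agent.R371.BF

/-- the complex function `(2 y - 1)^2 (y + 1) + y^K (y - 1)` -/
noncomputable def Q (K : ℕ) (y : ℂ) : ℂ := (2 * y - 1) ^ 2 * (y + 1) + y ^ K * (y - 1)

/-- the real function `(2 y - 1)^2 (y + 1) + y^K (y - 1)` -/
noncomputable def q (K : ℕ) (y : ℝ) : ℝ := (2 * y - 1) ^ 2 * (y + 1) + y ^ K * (y - 1)

theorem Q_ofReal (K : ℕ) (y : ℝ) : Q K (y : ℂ) = ((q K y : ℝ) : ℂ) := by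
  unfold Q q; push_cast; ring

theorem two_pow_le {L : ℕ} (hL : 1 ≤ L) : (2 : ℝ) ^ L ≤ (1 + 1 / (L : ℝ) ^ 2) ^ (L ^ 3) := by
  have hL' : (0 : ℝ) < (L : ℝ) ^ 2 := by positivity
  have h1 : (2 : ℝ) ≤ (1 + 1 / (L : ℝ) ^ 2) ^ (L ^ 2) := by
    have h := one_add_mul_le_pow (a := 1 / (L : ℝ) ^ 2)
      (by have : 0 ≤ 1 / (L : ℝ) ^ 2 := by positivity
          linarith) (L ^ 2)
    have e : 1 + ((L ^ 2 : ℕ) : ℝ) * (1 / (L : ℝ) ^ 2) = 2 := by
      push_cast; field_simp; norm_num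
    rw [e] at h; exact h
  have h2 : (1 + 1 / (L : ℝ) ^ 2) ^ (L ^ 3) = ((1 + 1 / (L : ℝ) ^ 2) ^ (L ^ 2)) ^ L := by
    rw [← pow_mul, ← pow_succ]
  rw [h2]
  exact pow_le_pow_left₀ (by norm_num) h1 L

theorem pow_le_two {L : ℕ} (hL : 1 ≤ L) :
    (1 - 1 / (L : ℝ) ^ 2) ^ (L ^ 3) * 2 ^ L ≤ 1 := by
  have hL1 : (1 : ℝ) ≤ (L : ℝ) ^ 2 := by
    have : (1 : ℝ) ≤ L := by exact_mod_cast hL
    nlinarith
  have h0 : 0 ≤ 1 - 1 / (L : ℝ) ^ 2 := by
    have : 1 / (L : ℝ) ^ 2 ≤ 1 := by rw [div_le_one (by linarith)]; exact hL1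
    linarith
  have h1 : (0 : ℝ) ≤ 1 / (L : ℝ) ^ 2 := by positivity
  calc (1 - 1 / (L : ℝ) ^ 2) ^ (L ^ 3) * 2 ^ L
      ≤ (1 - 1 / (L : ℝ) ^ 2) ^ (L ^ 3) * (1 + 1 / (L : ℝ) ^ 2) ^ (L ^ 3) := by
        apply mul_le_mul_of_nonneg_left (two_pow_le hL) (pow_nonneg h0 _)
    _ = ((1 - 1 / (L : ℝ) ^ 2) * (1 + 1 / (L : ℝ) ^ 2)) ^ (L ^ 3) := by rw [mul_pow]
    _ ≤ 1 := by
        apply pow_le_one₀
        · apply mul_nonneg h0; linarith
        · nlinarith [mul_nonneg h1 h1]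

/-- Roots away from `1/2` are close to the unit circle. -/
theorem annulus {L : ℕ} (hL : 16 ≤ L) (hL2 : 200 * (L : ℝ) ^ 2 < 2 ^ L) {y : ℂ}
    (hy : Q (L ^ 3) y = 0) (hfar : 1 / 10 < ‖2 * y - 1‖) : |‖y‖ - 1| ≤ 1 / (L : ℝ) ^ 2 := by
  set δ : ℝ := 1 / (L : ℝ) ^ 2 with hδ
  have hLr : (16 : ℝ) ≤ L := by exact_mod_cast hL
  have hLpos : (0 : ℝ) < (L : ℝ) ^ 2 := by positivity
  have hδpos : 0 < δ := by rw [hδ]; positivity
  have hδsmall : δ ≤ 1 / 256 := by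
    rw [hδ]
    apply one_div_le_one_div_of_le (by norm_num)
    nlinarith
  have hδL : δ * (L : ℝ) ^ 2 = 1 := by rw [hδ]; field_simp
  have hK : 3 ≤ L ^ 3 := by
    calc 3 ≤ 16 ^ 3 := by norm_num
      _ ≤ L ^ 3 := Nat.pow_le_pow_left hL 3
  have heq : ‖2 * y - 1‖ ^ 2 * ‖y + 1‖ = ‖y‖ ^ (L ^ 3) * ‖y - 1‖ := by
    have h1 : (2 * y - 1) ^ 2 * (y + 1) = -(y ^ (L ^ 3) * (y - 1)) := by
      unfold Q at hy
      linear_combination hy
    have h2 := congrArg norm h1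
    rw [norm_neg, norm_mul, norm_mul, norm_pow, norm_pow] at h2
    exact h2
  have hfar2 : 1 / 100 ≤ ‖2 * y - 1‖ ^ 2 := by nlinarith
  by_contra hcon
  push Not at hcon
  set t : ℝ := ‖y‖ with ht
  have ht0 : 0 ≤ t := norm_nonneg y
  rcases lt_abs.1 hcon with h | h
  · -- `t > 1 + δ`
    have ht1 : 1 + δ < t := by linarith
    have htpos : 0 < t := by linarith
    have e1 : t - 1 ≤ ‖y - 1‖ := by
      have := norm_sub_norm_le y 1
      rw [norm_one] at this; exact this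
    have e2 : ‖2 * y - 1‖ ≤ 3 * t := by
      have := norm_sub_le (2 * y) 1
      rw [norm_mul, norm_one] at this
      have h2 : ‖(2 : ℂ)‖ = 2 := by simp
      rw [h2] at this
      rw [← ht] at this
      linarith
    have e3 : ‖y + 1‖ ≤ 2 * t := by
      have := norm_add_le y 1
      rw [norm_one] at this
      rw [← ht] at this
      linarith
    have e4 : ‖2 * y - 1‖ ^ 2 * ‖y + 1‖ ≤ (3 * t) ^ 2 * (2 * t) := by
      apply mul_le_mul (pow_le_pow_left₀ (norm_nonneg _) e2 2) e3 (norm_nonneg _) (by positivity)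
    have e5 : t ^ (L ^ 3) * δ ≤ ‖2 * y - 1‖ ^ 2 * ‖y + 1‖ := by
      rw [heq]
      apply mul_le_mul_of_nonneg_left (by linarith) (by positivity)
    have e6 : t ^ (L ^ 3) = t ^ 3 * t ^ (L ^ 3 - 3) := by
      rw [← pow_add]; congr 1; omega
    have e7 : t ^ 3 * (t ^ (L ^ 3 - 3) * δ) ≤ t ^ 3 * 18 := by
      calc t ^ 3 * (t ^ (L ^ 3 - 3) * δ) = t ^ (L ^ 3) * δ := by rw [e6]; ring
        _ ≤ _ := e5
        _ ≤ _ := e4
        _ = t ^ 3 * 18 := by ring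
    have e8 : t ^ (L ^ 3 - 3) * δ ≤ 18 := le_of_mul_le_mul_left e7 (by positivity)
    have e9 : (1 + δ) ^ (L ^ 3 - 3) ≤ t ^ (L ^ 3 - 3) :=
      pow_le_pow_left₀ (by linarith) ht1.le _
    have e10 : (2 : ℝ) ^ L ≤ (1 + δ) ^ (L ^ 3 - 3) * 2 := by
      calc (2 : ℝ) ^ L ≤ (1 + δ) ^ (L ^ 3) := two_pow_le (by omega)
        _ = (1 + δ) ^ (L ^ 3 - 3) * (1 + δ) ^ 3 := by rw [← pow_add]; congr 1; omega
        _ ≤ (1 + δ) ^ (L ^ 3 - 3) * 2 := by
            apply mul_le_mul_of_nonneg_left _ (by positivity)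
            calc (1 + δ) ^ 3 ≤ (1 + 1 / 256) ^ 3 := by
                  apply pow_le_pow_left₀ (by linarith); linarith
              _ ≤ 2 := by norm_num
    have e11 : (2 : ℝ) ^ L * δ ≤ 36 := by
      calc (2 : ℝ) ^ L * δ ≤ ((1 + δ) ^ (L ^ 3 - 3) * 2) * δ := by
            apply mul_le_mul_of_nonneg_right e10 hδpos.le
        _ ≤ (t ^ (L ^ 3 - 3) * 2) * δ := by
            apply mul_le_mul_of_nonneg_right _ hδpos.le
            linarith
        _ ≤ 36 := by linarith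
    have e12 : (2 : ℝ) ^ L ≤ 36 * (L : ℝ) ^ 2 := by
      calc (2 : ℝ) ^ L = (2 : ℝ) ^ L * δ * (L : ℝ) ^ 2 := by rw [mul_assoc, hδL, mul_one]
        _ ≤ 36 * (L : ℝ) ^ 2 := by apply mul_le_mul_of_nonneg_right e11 hLpos.le
    nlinarith
  · -- `t < 1 - δ`
    have ht1 : t < 1 - δ := by linarith
    have e1 : δ ≤ ‖y + 1‖ := by
      have := norm_sub_norm_le (1 : ℂ) (-y)
      rw [norm_one, norm_neg, sub_neg_eq_add, add_comm (1 : ℂ)] at this
      rw [← ht] at this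
      linarith
    have e2 : ‖y - 1‖ ≤ 2 := by
      have := norm_sub_le y 1
      rw [norm_one] at this
      rw [← ht] at this
      linarith
    have e3 : 1 / 100 * δ ≤ ‖2 * y - 1‖ ^ 2 * ‖y + 1‖ :=
      mul_le_mul hfar2 e1 hδpos.le (by positivity)
    have e4 : t ^ (L ^ 3) ≤ (1 - δ) ^ (L ^ 3) := pow_le_pow_left₀ ht0 ht1.le _
    have e5 : ‖y‖ ^ (L ^ 3) * ‖y - 1‖ ≤ (1 - δ) ^ (L ^ 3) * 2 :=
      mul_le_mul e4 e2 (norm_nonneg _) (by
        apply pow_nonneg; linarith)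
    have e6 : 1 / 100 * δ ≤ (1 - δ) ^ (L ^ 3) * 2 := by
      rw [heq] at e3; linarith
    have e7 := pow_le_two (L := L) (by omega)
    rw [← hδ] at e7
    have e8 : 1 / 100 * δ * 2 ^ L ≤ 2 := by
      calc 1 / 100 * δ * 2 ^ L ≤ ((1 - δ) ^ (L ^ 3) * 2) * 2 ^ L := by
            apply mul_le_mul_of_nonneg_right e6 (by positivity)
        _ = 2 * ((1 - δ) ^ (L ^ 3) * 2 ^ L) := by ring
        _ ≤ 2 := by linarith
    have e9 : (2 : ℝ) ^ L ≤ 200 * (L : ℝ) ^ 2 := by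
      calc (2 : ℝ) ^ L = 100 * (1 / 100 * δ * 2 ^ L) * (L : ℝ) ^ 2 := by
            calc (2 : ℝ) ^ L = (δ * (L : ℝ) ^ 2) * 2 ^ L := by rw [hδL, one_mul]
              _ = _ := by ring
        _ ≤ 200 * (L : ℝ) ^ 2 := by
            apply mul_le_mul_of_nonneg_right _ hLpos.le
            linarith
    linarith

/-! ### At most two roots near `1/2` -/

theorem norm_geom_le {a b : ℂ} {r : ℝ} (ha : ‖a‖ ≤ r) (hb : ‖b‖ ≤ r) (k : ℕ) :
    ‖∑ i ∈ Finset.range k, a ^ i * b ^ (k - 1 - i)‖ ≤ k * r ^ (k - 1) := by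
  have hr : 0 ≤ r := (norm_nonneg a).trans ha
  calc ‖∑ i ∈ Finset.range k, a ^ i * b ^ (k - 1 - i)‖
      ≤ ∑ i ∈ Finset.range k, ‖a ^ i * b ^ (k - 1 - i)‖ := norm_sum_le _ _
    _ ≤ ∑ i ∈ Finset.range k, r ^ (k - 1) := by
        apply Finset.sum_le_sum
        intro i hi
        have hi' := Finset.mem_range.1 hi
        rw [norm_mul, norm_pow, norm_pow]
        calc ‖a‖ ^ i * ‖b‖ ^ (k - 1 - i) ≤ r ^ i * r ^ (k - 1 - i) := by
              apply mul_le_mul (pow_le_pow_left₀ (norm_nonneg _) ha _)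
                (pow_le_pow_left₀ (norm_nonneg _) hb _) (by positivity) (by positivity)
          _ = r ^ (k - 1) := by rw [← pow_add]; congr 1; omega
    _ = k * r ^ (k - 1) := by simp

/-- the second divided difference of `y ^ k` -/
noncomputable def h (a b c : ℂ) (k : ℕ) : ℂ :=
  ∑ i ∈ Finset.range k, (∑ j ∈ Finset.range i, a ^ j * c ^ (i - 1 - j)) * b ^ (k - 1 - i)

theorem norm_h_le {a b c : ℂ} {r : ℝ} (ha : ‖a‖ ≤ r) (hb : ‖b‖ ≤ r) (hc : ‖c‖ ≤ r) (k : ℕ) :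
    ‖h a b c k‖ ≤ k ^ 2 * r ^ (k - 2) := by
  have hr : 0 ≤ r := (norm_nonneg a).trans ha
  unfold h
  calc ‖∑ i ∈ Finset.range k, (∑ j ∈ Finset.range i, a ^ j * c ^ (i - 1 - j)) * b ^ (k - 1 - i)‖
      ≤ ∑ i ∈ Finset.range k, ‖(∑ j ∈ Finset.range i, a ^ j * c ^ (i - 1 - j)) * b ^ (k - 1 - i)‖ :=
        norm_sum_le _ _
    _ ≤ ∑ i ∈ Finset.range k, (k : ℝ) * r ^ (k - 2) := by
        apply Finset.sum_le_sum
        intro i hi
        have hi' := Finset.mem_range.1 hi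
        rw [norm_mul, norm_pow]
        rcases Nat.eq_zero_or_pos i with h0 | h0
        · subst h0
          simp only [Finset.range_zero, Finset.sum_empty, norm_zero, zero_mul]
          positivity
        · calc ‖∑ j ∈ Finset.range i, a ^ j * c ^ (i - 1 - j)‖ * ‖b‖ ^ (k - 1 - i)
              ≤ (i * r ^ (i - 1)) * r ^ (k - 1 - i) := by
                apply mul_le_mul (norm_geom_le ha hc i)
                  (pow_le_pow_left₀ (norm_nonneg _) hb _) (by positivity) (by positivity)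
            _ = i * r ^ (k - 2) := by
                rw [mul_assoc, ← pow_add]; congr 2; omega
            _ ≤ k * r ^ (k - 2) := by
                apply mul_le_mul_of_nonneg_right _ (by positivity)
                exact_mod_cast hi'.le
    _ = k ^ 2 * r ^ (k - 2) := by
        rw [Finset.sum_const, Finset.card_range, nsmul_eq_mul]; ring

theorem geom_diff (a b c : ℂ) (k : ℕ) :
    (∑ i ∈ Finset.range k, a ^ i * b ^ (k - 1 - i)) -
      (∑ i ∈ Finset.range k, c ^ i * b ^ (k - 1 - i)) = (a - c) * h a b c k := by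
  unfold h
  rw [← Finset.sum_sub_distrib, Finset.mul_sum]
  apply Finset.sum_congr rfl
  intro i _
  rw [← sub_mul, ← mul_assoc]
  congr 1
  rw [mul_comm, geom_sum₂_mul]

theorem Q_diff (K : ℕ) (a b : ℂ) :
    Q K a - Q K b = (a - b) * (4 * (a ^ 2 + a * b + b ^ 2) - 3 +
      (∑ i ∈ Finset.range (K + 1), a ^ i * b ^ (K + 1 - 1 - i)) -
      (∑ i ∈ Finset.range K, a ^ i * b ^ (K - 1 - i))) := by
  have h1 := geom_sum₂_mul a b (K + 1)
  have h2 := geom_sum₂_mul a b K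
  have h3 : ∀ y : ℂ, Q K y = 4 * y ^ 3 - 3 * y + 1 + y ^ (K + 1) - y ^ K := by
    intro y; unfold Q; ring
  rw [h3 a, h3 b]
  linear_combination -h1 + h2

theorem no_three {K : ℕ} (hK : 2 ≤ K) (hsmall : 2 * ((K : ℝ) + 1) ^ 2 * (11 / 20) ^ (K - 2) < 5)
    {a b c : ℂ} (ha : ‖2 * a - 1‖ ≤ 1 / 10) (hb : ‖2 * b - 1‖ ≤ 1 / 10)
    (hc : ‖2 * c - 1‖ ≤ 1 / 10) (Qa : Q K a = 0) (Qb : Q K b = 0) (Qc : Q K c = 0)
    (hab : a ≠ b) (hcb : c ≠ b) : a = c := by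
  by_contra hac
  have key : ∀ y : ℂ, ‖2 * y - 1‖ ≤ 1 / 10 → ‖y‖ ≤ 11 / 20 ∧ 9 / 20 ≤ y.re := by
    intro y hy
    constructor
    · have h1 : ‖2 * y‖ ≤ 11 / 10 := by
        calc ‖2 * y‖ = ‖(2 * y - 1) + 1‖ := by ring_nf
          _ ≤ ‖2 * y - 1‖ + ‖(1 : ℂ)‖ := norm_add_le _ _
          _ ≤ 11 / 10 := by rw [norm_one]; linarith
      rw [norm_mul] at h1
      have h2 : ‖(2 : ℂ)‖ = 2 := by simp
      rw [h2] at h1
      linarith
    · have h1 := Complex.abs_re_le_norm (2 * y - 1)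
      have h2 : (2 * y - 1).re = 2 * y.re - 1 := by simp
      rw [h2] at h1
      have h3 := (abs_le.1 (h1.trans hy)).1
      linarith
  obtain ⟨na, ra⟩ := key a ha
  obtain ⟨nb, rb⟩ := key b hb
  obtain ⟨nc, rc⟩ := key c hc
  have d1 := Q_diff K a b
  have d2 := Q_diff K c b
  rw [Qa, Qb, sub_self] at d1
  rw [Qc, Qb, sub_self] at d2
  have e1 := (mul_eq_zero.1 d1.symm).resolve_left (sub_ne_zero.2 hab)
  have e2 := (mul_eq_zero.1 d2.symm).resolve_left (sub_ne_zero.2 hcb)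
  have g1 := geom_diff a b c (K + 1)
  have g2 := geom_diff a b c K
  have e3 : (a - c) * (4 * (a + b + c) + h a b c (K + 1) - h a b c K) = 0 := by
    linear_combination e1 - e2 - g1 + g2
  have e4 := (mul_eq_zero.1 e3).resolve_left (sub_ne_zero.2 hac)
  have n1 := norm_h_le na nb nc (K + 1)
  have n2 := norm_h_le na nb nc K
  have e5 : 4 * (a + b + c) = h a b c K - h a b c (K + 1) := by linear_combination e4
  have e6 : ‖4 * (a + b + c)‖ ≤ ‖h a b c K‖ + ‖h a b c (K + 1)‖ := by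
    rw [e5]; exact norm_sub_le _ _
  have e7 : 5 ≤ ‖4 * (a + b + c)‖ := by
    have h1 := Complex.abs_re_le_norm (4 * (a + b + c))
    have h2 : (4 * (a + b + c)).re = 4 * (a.re + b.re + c.re) := by simp
    rw [h2] at h1
    have h3 := le_abs_self (4 * (a.re + b.re + c.re))
    linarith
  have e8 : (11 / 20 : ℝ) ^ (K + 1 - 2) ≤ (11 / 20) ^ (K - 2) :=
    pow_le_pow_of_le_one (by norm_num) (by norm_num) (by omega)
  have e9 : ((K + 1 : ℕ) : ℝ) ^ 2 * (11 / 20) ^ (K + 1 - 2) ≤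
      ((K : ℝ) + 1) ^ 2 * (11 / 20) ^ (K - 2) := by
    push_cast
    apply mul_le_mul_of_nonneg_left e8 (by positivity)
  have e10 : (K : ℝ) ^ 2 * (11 / 20) ^ (K - 2) ≤ ((K : ℝ) + 1) ^ 2 * (11 / 20) ^ (K - 2) := by
    apply mul_le_mul_of_nonneg_right _ (by positivity)
    have : (0 : ℝ) ≤ K := by positivity
    nlinarith
  linarith

/-! ### Real roots -/

theorem q_pos {K : ℕ} (hK : 100 ≤ K) {y : ℝ} (hy : 0 ≤ y) (hfar : 1 / 10 < |2 * y - 1|) :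
    0 < q K y := by
  unfold q
  have h1 : 1 / 100 < (2 * y - 1) ^ 2 := by
    have : (1 / 10 : ℝ) ^ 2 < |2 * y - 1| ^ 2 := by
      apply pow_lt_pow_left₀ hfar (by norm_num) (by norm_num)
    rw [sq_abs] at this
    linarith
  have h2 : 1 / 100 < (2 * y - 1) ^ 2 * (y + 1) := by nlinarith [sq_nonneg (2 * y - 1)]
  rcases le_or_gt 1 y with h | h
  · have : 0 ≤ y ^ K * (y - 1) := mul_nonneg (by positivity) (by linarith)
    linarith
  · -- `y ^ K (1 - y) (K + 1) ≤ 1`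
    have h3 : y ^ K * (1 - y) * K ≤ 1 := by
      -- `K y^K (1 - y) ≤ (1 - y) Σ_{i<K} y^i = 1 - y^K`
      have h4 : (K : ℝ) * y ^ K ≤ ∑ i ∈ Finset.range K, y ^ i := by
        calc (K : ℝ) * y ^ K = ∑ i ∈ Finset.range K, y ^ K := by simp
          _ ≤ ∑ i ∈ Finset.range K, y ^ i := by
              apply Finset.sum_le_sum
              intro i hi
              exact pow_le_pow_of_le_one hy h.le (Finset.mem_range.1 hi).le
      have h5 := mul_neg_geom_sum y K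
      have h6 : (1 - y) * ((K : ℝ) * y ^ K) ≤ (1 - y) * ∑ i ∈ Finset.range K, y ^ i :=
        mul_le_mul_of_nonneg_left h4 (by linarith)
      rw [h5] at h6
      have h7 : 0 ≤ y ^ K := by positivity
      nlinarith
    have h8 : (100 : ℝ) ≤ K := by exact_mod_cast hK
    have h9 : 0 ≤ y ^ K * (1 - y) := mul_nonneg (by positivity) (by linarith)
    nlinarith

theorem exists_roots {K : ℕ} {η : ℝ} (hη : 0 < η) (hη2 : η ≤ 1 / 20)
    (hsmall : (11 / 20 : ℝ) ^ K < 4 * η ^ 2) :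
    ∃ y₁ y₂ : ℝ, 1 / 2 - η < y₁ ∧ y₁ < 1 / 2 ∧ 1 / 2 < y₂ ∧ y₂ < 1 / 2 + η ∧
      q K y₁ = 0 ∧ q K y₂ = 0 := by
  have hcont : Continuous (q K) := by unfold q; fun_prop
  have h1 : q K (1 / 2) < 0 := by
    unfold q
    have : (0 : ℝ) < (1 / 2) ^ K := by positivity
    nlinarith
  have h2 : 0 < q K (1 / 2 - η) := by
    unfold q
    have e1 : (0 : ℝ) ≤ (1 / 2 - η) ^ K := by
      apply pow_nonneg; linarith
    have e2 : (1 / 2 - η) ^ K ≤ (11 / 20) ^ K :=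
      pow_le_pow_left₀ (by linarith) (by linarith) K
    have e3 : (1 / 2 - η) ^ K * (1 / 2 + η) ≤ (11 / 20) ^ K * 1 := by
      apply mul_le_mul e2 (by linarith) (by linarith) (by positivity)
    have e4 : (2 * (1 / 2 - η) - 1) ^ 2 * (1 / 2 - η + 1) ≥ 4 * η ^ 2 := by nlinarith
    nlinarith
  have h3 : 0 < q K (1 / 2 + η) := by
    unfold q
    have e1 : (0 : ℝ) ≤ (1 / 2 + η) ^ K := by
      apply pow_nonneg; linarith
    have e2 : (1 / 2 + η) ^ K ≤ (11 / 20) ^ K :=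
      pow_le_pow_left₀ (by linarith) (by linarith) K
    have e3 : (1 / 2 + η) ^ K * (1 / 2 - η) ≤ (11 / 20) ^ K * 1 := by
      apply mul_le_mul e2 (by linarith) (by linarith) (by positivity)
    have e4 : (2 * (1 / 2 + η) - 1) ^ 2 * (1 / 2 + η + 1) ≥ 4 * η ^ 2 := by nlinarith
    nlinarith
  have i1 := intermediate_value_Ioo' (by linarith : 1 / 2 - η ≤ 1 / 2) hcont.continuousOn
  have i2 := intermediate_value_Ioo (by linarith : 1 / 2 ≤ 1 / 2 + η) hcont.continuousOn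
  obtain ⟨y₁, hy₁, e₁⟩ := i1 ⟨h1, h2⟩
  obtain ⟨y₂, hy₂, e₂⟩ := i2 ⟨h1, h3⟩
  exact ⟨y₁, y₂, hy₁.1, hy₁.2, hy₂.1, hy₂.2, e₁, e₂⟩

end Pool.Agent.R371.BF
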